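import Pool.Agent.VMX.StmtsC

/-!
# Row ABN of squad VMX (MP_e54c4c_gt): the top and the bottom ray
-/

set_option autoImplicit false

open Matrix Filter Topology

namespace Pool.Agent.VMX.H37

open Pool.Agent.PFS Pool.Agent.PFJ Pool.Agent.NBT Pool.Agent.VMX

/-- `w_{i1} + t w_0 ∉ C` for `t ≥ 0` -/
theorem not_mem_pair {n k : ℕ} {C : Set (V n)} {Γ : Subgroup (GL (Fin n) ℝ)}
    (hk : 2 ≤ k) {w : Fin (k + 1) → V n} (hw : IsPES C Γ w) {i1 : Fin (k + 1)} (hi1 : i1 ≠ 0)
    {t : ℝ} (ht : 0 ≤ t) : w i1 + t • w 0 ∉ C := by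
  have hex : ∃ j : Fin (k + 1), j ≠ 0 ∧ j ≠ i1 := by
    by_contra hcon
    push Not at hcon
    have hsub : (Finset.univ : Finset (Fin (k + 1))) ⊆ {0, i1} := by
      intro j _
      by_cases hj : j = 0
      · simp [hj]
      · simp [hcon j hj]
    have hc := Finset.card_le_card hsub
    rw [Finset.card_univ, Fintype.card_fin] at hc
    have := Finset.card_le_two (a := (0 : Fin (k + 1))) (b := i1)
    omega
  obtain ⟨j, hj0, hj1⟩ := hex
  have hbd := hw.1.bd (fun i => if i = i1 then 1 else if i = 0 then t else 0)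
    (fun i => by
      by_cases h1 : i = i1
      · simp [h1]
      · by_cases h2 : i = 0
        · simp only [h2, if_true]
          split_ifs
          · exact zero_le_one
          · exact ht
        · simp [h1, h2])
    ⟨j, by simp [hj0, hj1]⟩
  intro hC
  apply hbd
  have hsum : (∑ i : Fin (k + 1), (if i = i1 then (1 : ℝ) else if i = 0 then t else 0) • w i) =
      w i1 + t • w 0 := by
    rw [Finset.sum_eq_add i1 0 hi1]
    · simp [hi1.symm]
    · intro c _ hc
      simp [hc.1, hc.2]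
    · intro h
      exact absurd (Finset.mem_univ _) h
    · intro h
      exact absurd (Finset.mem_univ _) h
  rw [hsum]
  exact hC

/-- **Row ABN** -/
theorem abn : AbnStmt := by
  intro n k C Γ hCC hk w hw g hg s la μ i1 b ψ hs hla hμ hi1 hg0 hA hβ hmem
  set β : ℝ := ψ (w i1) with hβdef
  -- the action of G on w 0
  have hginv : act g⁻¹ (w 0) = (s / la) • w 0 := by
    have h1 : act g (w 0) = (la / s) • w 0 := by
      have h2 : s⁻¹ • (s • act g (w 0)) = s⁻¹ • (la • w 0) := by rw [hg0]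
      rw [smul_smul, smul_smul, inv_mul_cancel₀ hs.ne', one_smul] at h2
      rw [h2]
      congr 1
      field_simp
    have h2 : act g⁻¹ (act g (w 0)) = act g⁻¹ ((la / s) • w 0) := by rw [h1]
    rw [CC.act_inv_act, CC.act_smul] at h2
    have h3 : (s / la) • w 0 = (s / la) • ((la / s) • act g⁻¹ (w 0)) := by rw [← h2]
    rw [smul_smul] at h3
    have h4 : s / la * (la / s) = 1 := by
      field_simp
    rw [h4, one_smul] at h3
    exact h3.symm
  have hG0 : ∀ m : ℕ, ((sA s⁻¹ g⁻¹) ^ m) (w 0) = (la⁻¹) ^ m • w 0 := by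
    intro m
    induction m with
    | zero => simp
    | succ m ih =>
      rw [pow_succ', Module.End.mul_apply, ih, map_smul, sA_apply, hginv, smul_smul, smul_smul]
      congr 1
      rw [pow_succ]
      field_simp
  have hnot : ∀ m : ℕ, ((μ⁻¹)⁻¹) ^ m • ((sA s⁻¹ g⁻¹) ^ m) (w i1) + β • w 0 ∉ C := by
    intro m hm
    have ht : 0 ≤ β * (la / μ) ^ m := by positivity
    apply not_mem_pair hk hw hi1 ht
    have he : ((μ⁻¹)⁻¹) ^ m • ((sA s⁻¹ g⁻¹) ^ m) (w i1) + β • w 0 =
        (μ ^ m * (s⁻¹) ^ m) • act (g⁻¹ ^ m) (w i1 + (β * (la / μ) ^ m) • w 0) := by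
      have h1 : ((sA s⁻¹ g⁻¹) ^ m) (w i1 + (β * (la / μ) ^ m) • w 0) =
          (s⁻¹) ^ m • act (g⁻¹ ^ m) (w i1 + (β * (la / μ) ^ m) • w 0) := sA_pow _ _ _ _
      rw [← smul_smul, ← h1, map_add, map_smul, hG0, smul_add, smul_smul, smul_smul, inv_inv]
      congr 2
      rw [div_pow, inv_pow]
      field_simp
    rw [he] at hm
    have hpos : 0 < μ ^ m * (s⁻¹) ^ m := by positivity
    have h2 := hCC.smul _ hm (μ ^ m * (s⁻¹) ^ m)⁻¹ (inv_pos.mpr hpos)
    rw [smul_smul, inv_mul_cancel₀ hpos.ne', one_smul] at h2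
    exact (hCC.act_mem_iff (Γ.pow_mem (Γ.inv_mem hg) m)).mp h2
  have hlim := hA.lim (w i1) Submodule.mem_top
  have hlim2 : Tendsto (fun m : ℕ => ((μ⁻¹)⁻¹) ^ m • ((sA s⁻¹ g⁻¹) ^ m) (w i1) + β • w 0) atTop
      (𝓝 (β • b + β • w 0)) := hlim.add tendsto_const_nhds
  have hclosed : β • b + β • w 0 ∈ Cᶜ := by
    refine IsClosed.mem_of_tendsto hCC.isOpen.isClosed_compl hlim2 ?_
    exact Filter.Eventually.of_forall hnot
  apply hclosed
  have h5 := hCC.smul _ hmem β hβ
  rw [smul_add] at h5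
  rw [add_comm]
  exact h5

end Pool.Agent.VMX.H37
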